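import Pool.Agent.H41.SS.Targets

/-!
Parameters of the first two parts (MP_c62aed_lc, row NM1).
-/

set_option autoImplicit false

namespace Pool.Agent.H96.SSM

open Finset Pool.Agent.H97.RK Pool.Agent.H97.RL Pool.Agent.H41.SS

private lemma powk {n k a : ℕ} (hn : 0 < (n : ℝ)) (hk : 0 < (k : ℝ)) (ha : 1 ≤ a)
    (h : Real.exp 1 * n / a ≤ k) (b : ℕ) :
    (Real.exp 1 * n / a) ^ b ≤ Real.exp (b * Real.log k) := by
  have h0 : (0 : ℝ) ≤ Real.exp 1 * n / a := by positivity
  calc (Real.exp 1 * n / a) ^ b ≤ (k : ℝ) ^ b := pow_le_pow_left₀ h0 h b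
    _ = Real.exp (b * Real.log k) := by
      rw [mul_comm, Real.exp_mul, Real.exp_log hk, Real.rpow_natCast]

private lemma expid (a b c d e P : ℝ) (hP : 0 < P) :
    Real.exp a * Real.exp b * (Real.exp c * P) * (P⁻¹ * Real.exp (-d)) * Real.exp e =
      Real.exp (a + b + c - d + e) := by
  rw [Real.exp_add (a + b + c - d) e, sub_eq_add_neg, Real.exp_add, Real.exp_add, Real.exp_add]
  field_simp

private lemma main (n m k D E u : ℕ) (l s A : ℝ) (hl : l = Real.log k) (hl1 : 1 ≤ l)
    (hs1 : 1 ≤ s) (hnk : (n : ℝ) = s * k) (hk : 0 < (k : ℝ)) (hA0 : 0 ≤ A)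
    (hm : (m : ℝ) ≤ Real.exp A * 2 ^ k * n) (hD1 : 1 ≤ D) (hDl : 3 * (l * s) ≤ D)
    (hE1 : (2 * A + 36 * l) * s ≤ E) (hE2 : (E : ℝ) ≤ (2 * A + 36 * l) * s + 1)
    (hEn : E ≤ n) (hu : (u : ℝ) ≤ l * s) (hCHO : T_CHO) :
    (n.choose (8 * D + E) : ℝ) * n.choose (8 * D) * m.choose D *
        (((n : ℝ) - (8 * D + E : ℕ) + (8 * D : ℕ)) / (2 * n)) ^ (k * D) * 2 ^ (u + 1) ≤
      1 / (16 * n) := by
  have hn : 0 < (n : ℝ) := by rw [hnk]; positivity
  have hDp : (0 : ℝ) < D := by exact_mod_cast hD1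
  have hD1' : (1 : ℝ) ≤ D := by exact_mod_cast hD1
  have he : Real.exp 1 ≤ 3 := by
    have := Real.exp_one_lt_d9
    linarith
  have hkl : Real.exp l = k := by rw [hl, Real.exp_log hk]
  -- e n / D <= k
  have hb : Real.exp 1 * n / D ≤ k := by
    rw [div_le_iff₀ hDp, hnk]
    have h1 : Real.exp 1 * (s * k) ≤ 3 * (s * k) :=
      mul_le_mul_of_nonneg_right he (by positivity)
    have h3 : s ≤ l * s := le_mul_of_one_le_left (by linarith) hl1
    have h2 := mul_le_mul_of_nonneg_left (show 3 * s ≤ D by linarith) hk.le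
    linarith
  have hb2 : ∀ a : ℕ, D ≤ a → Real.exp 1 * n / a ≤ k := by
    intro a ha
    have ha' : (D : ℝ) ≤ a := by exact_mod_cast ha
    refine le_trans ?_ hb
    exact div_le_div_of_nonneg_left (by positivity) hDp ha'
  have c1 : (n.choose (8 * D + E) : ℝ) ≤ Real.exp ((8 * D + E : ℕ) * l) := by
    rw [hl]
    exact (hCHO.1 n (8 * D + E) (by omega)).trans
      (powk hn hk (by omega) (hb2 _ (by omega)) _)
  have c2 : (n.choose (8 * D) : ℝ) ≤ Real.exp ((8 * D : ℕ) * l) := by
    rw [hl]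
    exact (hCHO.1 n (8 * D) (by omega)).trans
      (powk hn hk (by omega) (hb2 _ (by omega)) _)
  -- the clauses
  have c3 : (m.choose D : ℝ) ≤ Real.exp (D * (A + l)) * (2 ^ k) ^ D := by
    refine (hCHO.1 m D hD1).trans ?_
    have h1 : Real.exp 1 * m / D ≤ Real.exp (A + l) * 2 ^ k := by
      have h2 : Real.exp 1 * m / D ≤ Real.exp 1 * (Real.exp A * 2 ^ k * n) / D := by
        apply div_le_div_of_nonneg_right _ hDp.le
        exact mul_le_mul_of_nonneg_left hm (Real.exp_pos 1).le
      have h3 : Real.exp 1 * (Real.exp A * 2 ^ k * n) / D =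
          Real.exp A * 2 ^ k * (Real.exp 1 * n / D) := by ring
      have h4 : Real.exp A * 2 ^ k * (Real.exp 1 * n / D) ≤ Real.exp A * 2 ^ k * k :=
        mul_le_mul_of_nonneg_left hb (by positivity)
      rw [Real.exp_add, hkl]
      calc Real.exp 1 * m / D ≤ _ := h2
        _ = _ := h3
        _ ≤ _ := h4
        _ = _ := by ring
    calc (Real.exp 1 * m / D) ^ D ≤ (Real.exp (A + l) * 2 ^ k) ^ D :=
          pow_le_pow_left₀ (by positivity) h1 D
      _ = Real.exp (D * (A + l)) * (2 ^ k) ^ D := by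
        rw [mul_pow, ← Real.exp_nat_mul]
  -- the factor
  have hEn' : (E : ℝ) ≤ n := by exact_mod_cast hEn
  have c4 : (((n : ℝ) - (8 * D + E : ℕ) + (8 * D : ℕ)) / (2 * n)) ^ (k * D) ≤
      ((2 ^ k) ^ D)⁻¹ * Real.exp (-(D * (2 * A + 36 * l))) := by
    have h1 : ((n : ℝ) - (8 * D + E : ℕ) + (8 * D : ℕ)) / (2 * n) = 2⁻¹ * (1 - E / n) := by
      push_cast
      field_simp
      ring
    rw [h1]
    have h2 : 0 ≤ 1 - (E : ℝ) / n := by
      rw [sub_nonneg, div_le_one hn]
      exact hEn'
    have h3 : 1 - (E : ℝ) / n ≤ Real.exp (-(E / n)) := by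
      have := Real.add_one_le_exp (-((E : ℝ) / n))
      linarith
    calc (2⁻¹ * (1 - (E : ℝ) / n)) ^ (k * D) ≤ (2⁻¹ * Real.exp (-(E / n))) ^ (k * D) := by
          apply pow_le_pow_left₀ (by positivity)
          exact mul_le_mul_of_nonneg_left h3 (by norm_num)
      _ = ((2 ^ k) ^ D)⁻¹ * Real.exp ((k * D : ℕ) * (-(E / n))) := by
          rw [mul_pow, ← Real.exp_nat_mul, inv_pow, pow_mul]
      _ ≤ ((2 ^ k) ^ D)⁻¹ * Real.exp (-(D * (2 * A + 36 * l))) := by
          apply mul_le_mul_of_nonneg_left _ (by positivity)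
          apply Real.exp_le_exp.mpr
          have h4 : ((k * D : ℕ) : ℝ) * (-(E / n)) = -(D * (E / s)) := by
            rw [hnk]
            push_cast
            have : s ≠ 0 := by positivity
            field_simp
          rw [h4, neg_le_neg_iff]
          apply mul_le_mul_of_nonneg_left _ hDp.le
          rw [le_div_iff₀ (by positivity)]
          exact hE1
  have c5 : (2 : ℝ) ^ (u + 1) ≤ Real.exp (u + 1) := by
    have h1 : (2 : ℝ) ≤ Real.exp 1 := by
      have := Real.exp_one_gt_d9
      linarith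
    calc (2 : ℝ) ^ (u + 1) ≤ Real.exp 1 ^ (u + 1) := pow_le_pow_left₀ (by norm_num) h1 _
      _ = Real.exp (u + 1) := by
        rw [← Real.exp_nat_mul]
        push_cast
        ring_nf
  have hbase : (0 : ℝ) ≤ ((n : ℝ) - (8 * D + E : ℕ) + (8 * D : ℕ)) / (2 * n) := by
    apply div_nonneg _ (by positivity)
    push_cast
    linarith
  have hpow : (0 : ℝ) < (2 ^ k) ^ D := by positivity
  calc (n.choose (8 * D + E) : ℝ) * n.choose (8 * D) * m.choose D *
        (((n : ℝ) - (8 * D + E : ℕ) + (8 * D : ℕ)) / (2 * n)) ^ (k * D) * 2 ^ (u + 1)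
      ≤ Real.exp ((8 * D + E : ℕ) * l) * Real.exp ((8 * D : ℕ) * l) *
          (Real.exp (D * (A + l)) * (2 ^ k) ^ D) *
          (((2 ^ k) ^ D)⁻¹ * Real.exp (-(D * (2 * A + 36 * l)))) * Real.exp (u + 1) := by
        gcongr
    _ = Real.exp ((8 * D + E : ℕ) * l + (8 * D : ℕ) * l + D * (A + l) -
          D * (2 * A + 36 * l) + (u + 1)) := by
        exact expid _ _ _ _ _ _ hpow
    _ ≤ Real.exp (-Real.log (16 * n)) := by
        apply Real.exp_le_exp.mpr
        have hlog : Real.log (16 * n) ≤ 5 * (s * l) := by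
          rw [hnk, Real.log_mul (by norm_num) (by positivity),
            Real.log_mul (by positivity) hk.ne', ← hl]
          have h1 : Real.log 16 ≤ 3 := by
            have : Real.log 16 = 4 * Real.log 2 := by
              rw [show (16 : ℝ) = 2 ^ 4 by norm_num, Real.log_pow]
              norm_num
            rw [this]
            have := Real.log_two_lt_d9
            linarith
          have h2 : Real.log s ≤ s := by
            have := Real.log_le_sub_one_of_pos (show 0 < s by positivity)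
            linarith
          have h3 : s ≤ s * l := le_mul_of_one_le_right (by linarith) hl1
          have h4 : l ≤ s * l := le_mul_of_one_le_left (by linarith) hs1
          linarith
        push_cast
        have e1 : (E : ℝ) * l ≤ (2 / 3 * A + 12 * l) * D + l := by
          have h1 : (E : ℝ) * l ≤ ((2 * A + 36 * l) * s + 1) * l :=
            mul_le_mul_of_nonneg_right hE2 (by linarith)
          have h2 : (2 * A + 36 * l) * (l * s) ≤ (2 * A + 36 * l) * (D / 3) :=
            mul_le_mul_of_nonneg_left (by linarith) (by positivity)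
          linarith
        have e3 : l ≤ D * l := le_mul_of_one_le_left (by linarith) hD1'
        have e2 : (1 : ℝ) ≤ D * l := by linarith
        have e4 : (D : ℝ) ≤ D * l := le_mul_of_one_le_right hDp.le hl1
        have e5 := mul_le_mul_of_nonneg_right hDl (show 0 ≤ l by linarith)
        have e6 : s * l ≤ s * l * l := le_mul_of_one_le_right (by positivity) hl1
        have e7 : 0 ≤ A * D := by positivity
        linarith
    _ = 1 / (16 * n) := by
        rw [Real.exp_neg, Real.exp_log (by positivity), one_div]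

theorem pf_NM1 (hCHO : T_CHO) : T_NM1 := by
  refine ⟨300, by norm_num, ?_⟩
  intro k n m hk hn hL
  set l : ℝ := Real.log k with hl
  have hkR : (300 : ℝ) ≤ k := by exact_mod_cast hk
  have hk0 : (0 : ℝ) < k := by linarith
  have hnR : 300 * (k : ℝ) ≤ n := by exact_mod_cast hn
  have hn0 : (0 : ℝ) < n := by nlinarith
  set x : ℝ := m / (2 ^ k * n) with hx
  have hx0 : 0 ≤ x := by positivity
  set A : ℝ := Real.log (1 + x) with hA
  have hA0 : 0 ≤ A := Real.log_nonneg (by linarith)
  have hlg : lg n k m = l + A := by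
    rw [lg, Real.log_mul hk0.ne' (by positivity)]
  set s : ℝ := n / k with hs
  have hnk : (n : ℝ) = s * k := by
    rw [hs]
    field_simp
  have hs1 : 300 ≤ s := by
    rw [hs, le_div_iff₀ hk0]
    exact hnR
  have hl1 : 1 ≤ l := by
    rw [hl, Real.le_log_iff_exp_le hk0]
    have := Real.exp_one_lt_d9
    linarith
  rw [hlg] at hL
  push_cast at hL
  have hsl : s ≤ l * s := le_mul_of_one_le_left (by linarith) hl1
  have hls : 300 ≤ l * s := by linarith
  have hm : (m : ℝ) ≤ Real.exp A * 2 ^ k * n := by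
    rw [hA, Real.exp_log (by positivity)]
    have : (m : ℝ) = x * (2 ^ k * n) := by
      rw [hx]
      field_simp
    have h0 : (0 : ℝ) < 2 ^ k * n := by positivity
    calc (m : ℝ) = x * (2 ^ k * n) := this
      _ ≤ x * (2 ^ k * n) + 2 ^ k * n := by linarith
      _ = (1 + x) * 2 ^ k * n := by ring
  obtain ⟨D, hD⟩ : ∃ D : ℕ, D = ⌈3 * (l * s)⌉₊ := ⟨_, rfl⟩
  obtain ⟨E, hE⟩ : ∃ E : ℕ, E = ⌈(2 * A + 36 * l) * s⌉₊ := ⟨_, rfl⟩
  obtain ⟨u, hu⟩ : ∃ u : ℕ, u = ⌊l * s⌋₊ := ⟨_, rfl⟩
  have hD1 : 3 * (l * s) ≤ D := by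
    rw [hD]
    exact Nat.le_ceil _
  have hD2 : (D : ℝ) ≤ 4 * (l * s) := by
    have := (Nat.ceil_lt_add_one (show 0 ≤ 3 * (l * s) by positivity)).le
    rw [← hD] at this
    linarith
  have hE1 : (2 * A + 36 * l) * s ≤ E := by
    rw [hE]
    exact Nat.le_ceil _
  have hE2 : (E : ℝ) ≤ (2 * A + 36 * l) * s + 1 := by
    have := (Nat.ceil_lt_add_one (show 0 ≤ (2 * A + 36 * l) * s by positivity)).le
    rwa [← hE] at this
  have hu1 : (u : ℝ) ≤ l * s := by
    rw [hu]
    exact Nat.floor_le (by positivity)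
  have hAs : 0 ≤ A * s := by positivity
  have hD1' : 1 ≤ D := by
    have : (0 : ℝ) < D := by linarith
    exact_mod_cast this
  -- everything is at most n
  have hLs : 300 * (l * s + A * s) ≤ n := by
    rw [hnk]
    have := mul_le_mul_of_nonneg_left hL (show 0 ≤ s by linarith)
    linarith
  have hDn : 64 * D ≤ n := by
    have : (64 : ℝ) * D ≤ n := by linarith
    exact_mod_cast this
  have hsum : (u : ℝ) + 8 * D + (8 * D + E) ≤ 110 * (l * s + A * s) := by linarith
  have hsumn : u + 8 * D + (8 * D + E) ≤ n := by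
    have : (u : ℝ) + 8 * D + (8 * D + E) ≤ n := by linarith
    exact_mod_cast this
  have hb : Real.exp 1 * n / (4 * D : ℕ) ≤ k := by
    have hDp : (0 : ℝ) < D := by linarith
    push_cast
    rw [div_le_iff₀ (by positivity), hnk]
    have he : Real.exp 1 ≤ 3 := by
      have := Real.exp_one_lt_d9
      linarith
    have h1 : Real.exp 1 * (s * k) ≤ 3 * (s * k) :=
      mul_le_mul_of_nonneg_right he (by positivity)
    have h2 := mul_le_mul_of_nonneg_left (show 3 * s ≤ D by linarith) hk0.le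
    have h3 : 0 ≤ k * (D : ℝ) := by positivity
    linarith
  refine ⟨D, 8 * D + E, 8 * D, u, hD1', hDn, le_rfl, by omega, ?_, ?_, ?_, ?_⟩
  · intro a ha
    rw [hu]
    apply Nat.le_floor
    have : l / k * n = l * s := by
      rw [hs]
      field_simp
    linarith
  · exact main n m k D E u l s A hl hl1 (by linarith) hnk hk0 hA0 hm hD1' hD1 hE1 hE2
      (by omega) hu1 hCHO
  · rw [← Real.rpow_natCast]
    apply Real.rpow_le_rpow_of_exponent_le (by norm_num)
    rw [hlg]
    push_cast
    have : (300 : ℝ) * (l + A) / k * n = 300 * (l * s + A * s) := by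
      rw [hs]
      field_simp
    rw [this]
    linarith
  · have h1 : (bl n (4 * D) : ℝ) ≤ Real.exp ((4 * D : ℕ) * l) :=
      (hCHO.2 n (4 * D) (by omega) (by omega)).trans (powk hn0 hk0 (by omega) hb _)
    have h2 : Real.exp ((4 * D : ℕ) * l) ≤ (2 : ℝ) ^ (32 * (l * l * s)) := by
      rw [Real.rpow_def_of_pos (by norm_num)]
      apply Real.exp_le_exp.mpr
      push_cast
      have h3 : (4 * D : ℝ) * l ≤ 16 * (l * l * s) := by
        have := mul_le_mul_of_nonneg_right hD2 (show 0 ≤ l by linarith)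
        linarith
      have h4 : (1 : ℝ) / 2 ≤ Real.log 2 := by
        have := Real.log_two_gt_d9
        linarith
      have h5 : 0 ≤ l * l * s := by positivity
      have := mul_le_mul_of_nonneg_right h4 h5
      linarith
    rw [← Real.rpow_natCast 2 (2 * (8 * D + (8 * D + E)) + 2 * u + 2)]
    calc (2 : ℝ) ^ ((2 * (8 * D + (8 * D + E)) + 2 * u + 2 : ℕ) : ℝ) * bl n (4 * D)
        ≤ (2 : ℝ) ^ ((2 * (8 * D + (8 * D + E)) + 2 * u + 2 : ℕ) : ℝ) *
            (2 : ℝ) ^ (32 * (l * l * s)) :=
          mul_le_mul_of_nonneg_left (h1.trans h2) (by positivity)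
      _ = (2 : ℝ) ^ (((2 * (8 * D + (8 * D + E)) + 2 * u + 2 : ℕ) : ℝ) +
            32 * (l * l * s)) := by rw [Real.rpow_add (by norm_num)]
      _ ≤ _ := by
          apply Real.rpow_le_rpow_of_exponent_le (by norm_num)
          rw [hlg]
          push_cast
          have : (300 : ℝ) * (l ^ 2 + (l + A)) / k * n =
              300 * (l * l * s + l * s + A * s) := by
            rw [hs]
            field_simp
            ring
          rw [this]
          have h5 : 0 ≤ l * l * s := by positivity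
          linarith

end Pool.Agent.H96.SSM
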